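import Pool.Agent.H.MP_d93d44_co.B

namespace Pool.Agent.Results.MP_d93d44_co.Conj

open Matrix Polynomial

open Classical in
noncomputable def U {n : ℕ} (X : SimpleGraph (Fin n)) (t : ℝ) : Matrix (Fin n) (Fin n) ℂ :=
  NormedSpace.exp (((t : ℂ) * Complex.I) • X.adjMatrix ℂ)

open Classical in
noncomputable def E {n : ℕ} (X : SimpleGraph (Fin n)) (θ : ℝ) (a b : Fin n) : ℝ :=
  (Module.End.eigenspace (toEuclideanLin (X.adjMatrix ℝ)) θ).starProjection
    (EuclideanSpace.single b 1) a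

def Closed (S : Set ℝ) : Prop :=
  ∀ θ ∈ S, ∀ w : ℂ, aeval w (minpoly ℚ θ) = 0 → ∃ μ ∈ S, (μ : ℂ) = w

open Pool.Agent.H.MP_d93d44_co A B

theorem U_eq : U G t = B.U := by
  unfold U B.U
  congr

theorem E_eq (θ : ℝ) (a b : Fin 50) :
    E G θ a b = proj (G.adjMatrix ℝ) θ (EuclideanSpace.single b 1) a := by
  refine congrArg (fun x : EuclideanSpace ℝ (Fin 50) => x a) ?_
  unfold proj
  congr

theorem herm : (G.adjMatrix ℝ).IsHermitian := by
  rw [IsHermitian, conjTranspose_eq_transpose_of_trivial]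
  exact G.isSymm_adjMatrix

theorem pu (c θ : ℝ) (hc : c ^ 2 - 7 * c + 8 = 0) (h1 : c + d ≠ θ) (h2 : c - d ≠ θ) :
    proj (G.adjMatrix ℝ) θ (EuclideanSpace.single 0 1) 0 +
      (c - 4) / 2 * proj (G.adjMatrix ℝ) θ (EuclideanSpace.single 1 1) 0 =
      if c = θ then (c ^ 2 - 41) / 2296 * (8 * (c - 7)) else 0 := by
  have h := congrArg (fun w => proj (G.adjMatrix ℝ) θ (WithLp.toLp 2 w) 0) (dec c)
  simp only [WithLp.toLp_add, WithLp.toLp_smul, map_add, map_smul,
    proj_ne _ herm θ _ _ (e1 c hc) h1, proj_ne _ herm θ _ _ (e2 c hc) h2, smul_zero, add_zero,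
    PiLp.add_apply, PiLp.smul_apply, smul_eq_mul] at h
  refine h.trans ?_
  split_ifs with e
  · subst e
    rw [proj_same _ _ _ (e0 c hc)]
    rfl
  · rw [proj_ne _ herm θ _ _ (e0 c hc) e]
    simp

theorem irr : Irrational s := by
  have : Nat.Prime 17 := by norm_num
  simpa [s] using this.irrational_sqrt

theorem root : aeval (((7 - s) / 2 : ℝ) : ℂ) (minpoly ℚ ((7 + s) / 2)) = 0 := by
  have hm' : (X ^ 2 + C (-7) * X + C 8 : ℚ[X]).Monic := by monicity!
  have hd : (X ^ 2 + C (-7) * X + C 8 : ℚ[X]).natDegree = 2 := by compute_degree!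
  rw [← minpoly.eq_of_irreducible_of_monic (p := X ^ 2 + C (-7) * X + C 8) ?_ ?_ hm']
  · have := congrArg Complex.ofReal hm
    simp only [map_add, map_mul, map_pow, aeval_X, aeval_C]
    push_cast at this ⊢
    simp only [eq_ratCast]
    push_cast
    linear_combination this
  · rw [hm'.irreducible_iff_roots_eq_zero_of_degree_le_three (by omega) (by omega),
      Multiset.eq_zero_iff_forall_notMem]
    intro x hx
    have h1 := (mem_roots hm'.ne_zero).1 hx
    simp only [IsRoot, eval_add, eval_mul, eval_pow, eval_X, eval_C] at h1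
    have h2 : (x : ℝ) ^ 2 + (-7) * x + 8 = 0 := by exact_mod_cast h1
    have h3 : (s - (2 * x - 7)) * (s + (2 * x - 7)) = 0 := by linear_combination s2 - 4 * h2
    rcases mul_eq_zero.1 h3 with h | h
    · exact irr ⟨2 * x - 7, by push_cast; linarith⟩
    · exact irr ⟨7 - 2 * x, by push_cast; linarith⟩
  · simp only [map_add, map_mul, map_pow, aeval_X, aeval_C, eq_ratCast]
    push_cast
    linear_combination hp

theorem result : ∃ (n : ℕ) (X : SimpleGraph (Fin n)) (a b : Fin n) (t : ℝ), a ≠ b ∧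
    (∀ c, c ≠ a → c ≠ b → U X t a c = 0 ∧ U X t b c = 0) ∧ U X t a b ≠ 0 ∧
    ¬ (Closed {θ | 0 < E X θ a b} ∧ Closed {θ | E X θ a b < 0}) := by
  refine ⟨50, G, 0, 1, t, by decide, fun c h0 h1 => ?_, U_eq ▸ U01, fun h => ?_⟩
  · rw [U_eq, U_symm 0, U_symm 1]
    exact off c h0 h1
  · have a := s_pos
    have b := s_lt
    have s4 : 4 < s := by nlinarith [s2]
    have s5 : s < 5 := by nlinarith [s2]
    have p1 := pu _ ((7 + s) / 2) hp (by linarith [d_pos] : _ > _).ne' (by linarith [d_pos] : _ < _).ne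
    have p2 := pu _ ((7 + s) / 2) hm (by linarith : _ > _).ne' (by linarith : _ < _).ne
    have p3 := pu _ ((7 - s) / 2) hp (by linarith : _ > _).ne' (by linarith : _ < _).ne
    have p4 := pu _ ((7 - s) / 2) hm (by linarith [d_pos] : _ > _).ne' (by linarith [d_pos] : _ < _).ne
    rw [if_pos rfl] at p1 p4
    rw [if_neg (by linarith : _ < _).ne] at p2
    rw [if_neg (by linarith : _ > _).ne'] at p3
    simp only [← E_eq] at p1 p2 p3 p4
    obtain ⟨μ, hμ, e⟩ := h.1 ((7 + s) / 2) (by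
      rw [Set.mem_ofPred_eq]
      by_contra hn
      nlinarith [s2]) _ root
    rw [Complex.ofReal_injective e, Set.mem_ofPred_eq] at hμ
    nlinarith [s2]

end Pool.Agent.Results.MP_d93d44_co.Conj
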